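import Pool.Agent.H77.SSA.Stmts

namespace SSA

open Filter

theorem ad_above (p : RC) (ξ η : Om) : ∃ h, p.ht ≤ h ∧ ξ < h ∧ η < h := by
  obtain ⟨h, hh⟩ := Om.bdd (s := {p.ht, ξ, η}) (by
    apply Set.Finite.countable
    exact Set.toFinite _)
  exact ⟨h, (hh _ (by simp)).le, hh _ (by simp), hh _ (by simp)⟩

theorem ad_raise (hx : XXStmt) (p : PP) (ξ η : Om) :
    ∃ q : PP, q ≤ p ∧ ξ < q.1.ht ∧ η < q.1.ht := by
  obtain ⟨h, h1, h2, h3⟩ := ad_above p.1 ξ η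
  obtain ⟨q, hq, hle, hht, -, -⟩ := hx Set.univ p.1 p.2 h h1 (fun _ _ => 0)
  exact ⟨⟨q, hq⟩, hle, by rw [hht]; exact h2, by rw [hht]; exact h3⟩

theorem ssa_ad (hx : XXStmt) : ADStmt := by
  refine ⟨?_, ?_, ?_, ?_, ?_, ?_⟩
  · refine ⟨⟨{ ht := bt, x := fun _ _ => 0, z := fun _ _ => 0, Pi := ∅, Z := ∅,
               dl := fun _ => bt, st := fun _ _ _ => .opn ∅ }, ?_, ?_, ?_⟩, trivial⟩
    · constructor
      · exact Set.countable_empty
      · intro S hS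
        exact absurd hS (Set.notMem_empty S)
      · exact Set.countable_empty
      · intro ξ hξ
        exact absurd hξ (not_lt.2 (bt_le ξ))
      · intro ξ hξ
        exact absurd hξ (not_lt.2 (bt_le ξ))
    · exact Set.empty_subset _
    · intro g hg
      exact absurd hg (Set.notMem_empty g)
  · rintro p q ξ v hqp ⟨h1, k, rfl⟩
    have hle : q.1.Le p.1 := hqp
    exact ⟨h1.trans_le hle.ht, k, by rw [hle.x ξ h1]⟩
  · rintro p q ξ n v hqp ⟨h1, rfl⟩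
    have hle : q.1.Le p.1 := hqp
    exact ⟨h1.trans_le hle.ht, by rw [hle.z ξ h1]⟩
  · intro p ξ n
    obtain ⟨q, hq, h1, -⟩ := ad_raise hx p ξ ξ
    exact ⟨q, hq, q.1.z ξ n, h1, rfl⟩
  · intro p ξ N
    obtain ⟨q, hq, h1, -⟩ := ad_raise hx p ξ ξ
    exact ⟨q, hq, Nat.pair N (q.1.x ξ N), Nat.left_le_pair _ _, h1, N, rfl⟩
  · intro p ξ η hne
    obtain ⟨q, hq, h1, h2⟩ := ad_raise hx p ξ η
    obtain ⟨K₀, hK₀⟩ := eventually_atTop.1 (q.2.1.ed ξ h1 η h2 hne)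
    refine ⟨q, hq, ∑ k ∈ Finset.range K₀, Nat.pair k (q.1.x ξ k) + 1, ?_⟩
    rintro v hv r hr ⟨⟨-, k, hk⟩, ⟨-, k', hk'⟩⟩
    have hle : r.1.Le q.1 := hr
    rw [hle.x ξ h1] at hk
    rw [hle.x η h2] at hk'
    have hkk := hk.symm.trans hk'
    rw [Nat.pair_eq_pair] at hkk
    obtain ⟨rfl, h3⟩ := hkk
    have hlt : k < K₀ := by
      by_contra hcon
      exact hK₀ k (not_lt.1 hcon) h3
    have h4 : Nat.pair k (q.1.x ξ k) ≤ ∑ k ∈ Finset.range K₀, Nat.pair k (q.1.x ξ k) :=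
      Finset.single_le_sum (f := fun k => Nat.pair k (q.1.x ξ k)) (fun _ _ => Nat.zero_le _)
        (Finset.mem_range.2 hlt)
    omega

end SSA
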