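import Pool.Agent.H77.SSA.Stmts

namespace SSA

open Filter

theorem bnd_put_le {q p : RC} (h : q.Le p) (Ψ : Finset Pos) (τ : Pos → St) :
    (q.put Ψ τ).Le (p.put Ψ τ) := by
  refine ⟨h.ht, h.x, h.z, h.Pi, h.av, h.Z, h.dl, ?_⟩
  intro g hg n k
  by_cases hin : (g, n, k) ∈ Ψ
  · have h1 : (q.put Ψ τ).st g n k = τ (g, n, k) := by
      simp only [RC.put]
      rw [if_pos hin]
    have h2 : (p.put Ψ τ).st g n k = τ (g, n, k) := by
      simp only [RC.put]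
      rw [if_pos hin]
    rw [h1, h2]
    exact St.le_refl _
  · have h1 : (q.put Ψ τ).st g n k = q.st g n k := by
      simp only [RC.put]
      rw [if_neg hin]
    have h2 : (p.put Ψ τ).st g n k = p.st g n k := by
      simp only [RC.put]
      rw [if_neg hin]
    rw [h1, h2]
    exact h.st g hg n k

theorem ssa_bnd (hF : FUSStmt) (hD : DECFStmt) (hC : CATCHStmt) : BNDStmt := by
  intro A hA E hE p hp Φ hΦ
  obtain ⟨ps, Ψs, q, hq, hqp, hps, hfr⟩ := hF A hA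
    (fun s Ψ r => ∃ M : ℕ, ∀ τ, DecOn Ψ τ → VA A (r.put Ψ τ) ∧ ∃ m ≤ M, E s (r.put Ψ τ) m)
    (by
      intro s Ψ r hr hΨ
      obtain ⟨q, M, h1, h2, h3⟩ := hD A (E s)
        (fun r hr => by
          obtain ⟨s', h1, h2, m, h3⟩ := hE.dense s r hr
          exact ⟨s', m, h1, h2, h3⟩)
        (fun r s' m h1 h2 h3 h4 => hE.mono s r s' m h1 h2 h3 h4) r hr Ψ hΨ
      exact ⟨q, h1, h2, M, h3⟩) p hp Φ hΦ
  have hM : ∀ s, ∃ M : ℕ, ∀ τ, DecOn (Ψs s) τ → VA A ((ps s).put (Ψs s) τ) ∧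
      ∃ m ≤ M, E s ((ps s).put (Ψs s) τ) m := fun s => (hps s).2.2.1
  choose M hM using hM
  have key : ∀ (q' : RC) (j : ℕ), q'.Sim q →
      (∀ g ∈ q.Z, ∀ n k, (g, n, k) ∉ Ψs j → q'.st g n k = q.st g n k) →
      Bd A E j (M j) q' := by
    intro q' j hsim hch r hr hrq
    have hle : LeF (Ψs j) q (ps j) := (hps j).2.2.2
    have hpos : PosIn (Ψs j) q := PosIn.of_le (hps j).2.1 hle.1
    obtain ⟨s, τ, hs, hsr, hτ, hsq⟩ := hC A q q' (Ψs j) hq hsim hpos hch r hr hrq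
    obtain ⟨hv, m, hm, hEm⟩ := hM j τ hτ
    exact ⟨s, m, hs, hsr, hm, hE.mono j _ s m hv hs
      (RC.Le.trans hsq (bnd_put_le hle.1 _ _)) hEm⟩
  refine ⟨q, M, hq, hqp, ?_, ?_⟩
  · intro j
    exact key q j (RC.Sim.refl hq.lg) (fun g _ n k _ => rfl)
  · intro q' hsim
    -- all changed positions are frozen eventually
    have h1 : ∀ t : Crd × ℕ × ℕ, ∃ s0, t.1 ∈ q.Z → ∀ s, s0 ≤ s → t ∈ Ψs s := by
      rintro ⟨g, n, k⟩
      by_cases hg : g ∈ q.Z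
      · obtain ⟨s0, hs0⟩ := hfr g hg n k
        exact ⟨s0, fun _ => hs0⟩
      · exact ⟨0, fun h => absurd h hg⟩
    choose s0 hs0 using h1
    refine ⟨∑ t ∈ hsim.fin.toFinset, s0 t, ?_⟩
    intro j hj
    apply key q' j hsim
    intro g hg n k hnot
    by_contra hne
    apply hnot
    have hmem : ((g, n, k) : Crd × ℕ × ℕ) ∈ hsim.fin.toFinset :=
      hsim.fin.mem_toFinset.2 ⟨hg, hne⟩
    apply hs0 (g, n, k) hg
    refine le_trans ?_ hj
    exact Finset.single_le_sum (f := s0) (fun _ _ => Nat.zero_le _) hmem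

end SSA
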