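import Pool.Agent.H77.SSA.Stmts

namespace SSA

open Filter

theorem ssa_dom (hi : INDStmt) (hx : XXStmt) : DOMStmt := by
  intro R hdense hmono p
  have hNam : Nam Set.univ (fun n r m => ∃ h : VA Set.univ r, R ⟨r, h⟩ n m) := by
    constructor
    · intro j r hr
      obtain ⟨q, hq, m, hm⟩ := hdense j ⟨r, hr⟩
      exact ⟨q.1, q.2, hq, m, q.2, hm⟩
    · rintro j r s m hr hs hsr ⟨h, hR⟩
      exact ⟨hs, hmono j m ⟨r, h⟩ ⟨s, hs⟩ hsr hR⟩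
  obtain ⟨q, m, hq, hqp, hBd, -⟩ := (hi Set.univ clo_univ).2 _ hNam p.1 p.2 ∅
    (fun t ht => absurd ht (Finset.notMem_empty t))
  obtain ⟨h, hh⟩ := Om.bdd (Set.countable_singleton q.ht)
  have hlt : q.ht < h := hh _ rfl
  obtain ⟨q₂, hq₂, hle, hht, hz, -⟩ := hx Set.univ q hq h hlt.le (fun _ => m)
  refine ⟨⟨q₂, hq₂⟩, RC.Le.trans hle hqp.1, q.ht, ?_⟩
  intro n r hr
  have hr' : r.1.Le q₂ := hr
  obtain ⟨s, m', hs, hsr, hm', hE, hR⟩ := hBd n r.1 r.2 (RC.Le.trans hr' hle)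
  refine ⟨⟨s, hs⟩, hsr, m', m n, hm', hR, ?_, ?_⟩
  · have h1 : q₂.ht ≤ s.ht := (RC.Le.trans hsr hr').ht
    rw [hht] at h1
    exact hlt.trans_le h1
  · have h1 := (RC.Le.trans hsr hr').z q.ht (by rw [hht]; exact hlt)
    change s.z q.ht n = m n
    rw [h1, hz q.ht le_rfl hlt]

end SSA
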