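import Pool.Agent.H77.SSA.Stmts

namespace SSA

open Filter

theorem enc_aux (hs : SIMStmt) (q : RC) (hq : VA Set.univ q) (d : Dat) (ch : ℕ → Crd)
    (h1 : d.ht = q.ht) (h2 : d.x = q.x) (h3 : d.z = q.z) (h4 : d.Pi = q.Pi)
    (h5 : {g | ∃ i ∈ d.act, ch i = g} = q.Z) (h6 : ∀ i, d.dl i = q.dl (ch i))
    (h7 : ∀ i, d.st i = q.st (ch i)) :
    VA Set.univ (deco d ch) ∧ (deco d ch).Le q ∧ q.Le (deco d ch) ∧ (deco d ch).Z = q.Z := by
  have hZ : (deco d ch).Z = q.Z := h5
  have hdl : ∀ g ∈ q.Z, (deco d ch).dl g = q.dl g := by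
    intro g hg
    rw [← h5] at hg
    have hex : ∃ i, i ∈ d.act ∧ ch i = g := hg
    have h8 : (deco d ch).dl g = d.dl hex.choose := by
      simp only [deco]
      rw [dif_pos hex]
    rw [h8, h6, hex.choose_spec.2]
  have hst : ∀ g ∈ q.Z, (deco d ch).st g = q.st g := by
    intro g hg
    rw [← h5] at hg
    have hex : ∃ i, i ∈ d.act ∧ ch i = g := hg
    have h8 : (deco d ch).st g = d.st hex.choose := by
      simp only [deco]
      rw [dif_pos hex]
    rw [h8, h7, hex.choose_spec.2]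
  refine ⟨?_, ?_, ?_, hZ⟩
  · refine hs Set.univ q _ hq ?_
    refine ⟨h1, fun ξ _ => by rw [← h2]; rfl, fun ξ _ => by rw [← h3]; rfl, h4, hZ, hdl, ?_, ?_⟩
    · intro g hg n k
      rw [hst g hg]
      exact hq.lg g hg n k
    · have : {t : Crd × ℕ × ℕ | t.1 ∈ q.Z ∧ (deco d ch).st t.1 t.2.1 t.2.2 ≠
          q.st t.1 t.2.1 t.2.2} = ∅ := by
        ext t
        simp only [Set.mem_setOf_eq, Set.mem_empty_iff_false, iff_false, not_and, not_not]
        intro ht
        rw [hst _ ht]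
      rw [this]
      exact Set.finite_empty
  · refine ⟨h1.symm.le, fun ξ _ => by rw [← h2]; rfl, fun ξ _ => by rw [← h3]; rfl,
      h4.symm.subset, ?_, hZ.symm.subset, fun g hg => (hdl g hg).symm.le, ?_⟩
    · intro ξ h8 h9
      have : (deco d ch).ht = q.ht := h1
      rw [this] at h9
      exact absurd h9 (not_lt.2 h8)
    · intro g hg n k
      rw [hst g hg]
      exact St.le_refl _
  · refine ⟨h1.le, fun ξ _ => by rw [← h2]; rfl, fun ξ _ => by rw [← h3]; rfl,
      h4.subset, ?_, hZ.subset, ?_, ?_⟩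
    · intro ξ h8 h9
      have : (deco d ch).ht = q.ht := h1
      rw [this] at h8
      exact absurd h9 (not_lt.2 h8)
    · intro g hg
      rw [hZ] at hg
      exact (hdl g hg).le
    · intro g hg n k
      rw [hZ] at hg
      rw [hst g hg]
      exact St.le_refl _

theorem ssa_enc (hs : SIMStmt) : ENCStmt := by
  intro ev q hq hZ
  rcases q.Z.eq_empty_or_nonempty with hemp | hne
  · refine ⟨{ ht := q.ht, x := q.x, z := q.z, Pi := q.Pi, act := ∅,
              dl := fun _ => q.dl (ev .leaf), st := fun _ => q.st (ev .leaf) },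
      fun _ => .leaf, ?_⟩
    apply enc_aux hs q hq _ _ rfl rfl rfl rfl ?_ (fun i => rfl) (fun i => rfl)
    rw [hemp]
    ext g
    simp
  · obtain ⟨f, hf⟩ := hq.1.cZ.exists_eq_range hne
    have h1 : ∀ i, ∃ t, ev t = f i := fun i => hZ (hf ▸ Set.mem_range_self i)
    choose ts hts using h1
    refine ⟨{ ht := q.ht, x := q.x, z := q.z, Pi := q.Pi, act := Set.univ,
              dl := fun i => q.dl (ev (ts i)), st := fun i => q.st (ev (ts i)) }, ts, ?_⟩
    apply enc_aux hs q hq _ _ rfl rfl rfl rfl ?_ (fun i => rfl) (fun i => rfl)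
    rw [hf]
    ext g
    simp [hts]

end SSA
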