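import Pool.Agent.H77.SSA.Stmts

namespace SSA

open Filter

theorem ssa_ind (hb : BNDStmt) (hd : D2SStmt) : INDStmt := by
  have key : ∀ g : Crd, Bnd (Dep g) := by
    intro g
    induction g using dep_wf.induction with
    | _ g ih =>
      exact hb (Dep g) (fun a ha => hd (Dep g) a (clo_dep g) ha (ih a ha))
  intro A hA
  have h1 : ∀ g ∈ A, D2 A g := fun g hg => hd A g hA hg (key g)
  exact ⟨h1, hb A h1⟩

end SSA
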